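import Pool.Agent.T2h09.CM.Top
import Pool.Agent.N145.SX.Cover

/-!
# The canonical maps of the varieties dominated by a variety with positive canonical class

Let `V` be a projective manifold of dimension `n` with a rational map `V ⇢ Z` onto a variety
`Z ⊆ ℙ^(N - 1)` of dimension `e`, let `H` be the pull-back of the hyperplane class and let
`K_V - m H` be effective. Let `V ⇢ W` be any dominant rational map of finite degree to a smooth
projective variety `W`. It need not be a quotient by a group, it is not assumed that it is compatible
with `V ⇢ Z`, and its degree may be arbitrarily large. Only the number `d` of the points of `Z` below a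
general point of `W` is bounded, i.e. the degree of `V₁ ⇢ W` where `V₁` is the image of `V` in
`W × Z`. Suppose that one of the following holds:

* `V₁ = V`, for instance `V ⇢ Z` is birational (then `d` is the degree of `V ⇢ W`);
* some section `ω` of `K_V - m H` has a trace to `V₁` which is not zero;
* `p_g (W) > 0`, and the canonical map of `V` is `V ⇢ Z` (all canonical forms of `V` are the products
  of `ω` and functions on `Z`).

Then:

1. If `d ≤ m + 1` then `p_g (W) > 0`.

2. If `d ≤ m`, and `Z` is not covered by rational curves or `V ⇢ Z` is birational, or if
`2 d ≤ m + 1`, then the image of the canonical map of `W` has dimension at least `e`: the function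
field of `Z` is algebraic over that of the canonical image of `W`. So `κ (W) ≥ e`. If `ν (V) ≤ e` then
`κ (W) = ν (W) = e`, and so all projective manifolds which are birational to `W` satisfy the abundance
conjecture.

3. If `2 d ≤ m + 1` then all functions on `W` whose pull-backs to `V` are functions on `Z` are ratios
of canonical forms of `W`. So if `V ⇢ Z` is birational, then the canonical map of `W` is birational
onto its image; and if the canonical map of `V` is `V ⇢ Z`, then the function field of the canonical
image of `W` is the intersection of those of `W` and `Z`.

For instance, let `Z` be a smooth complete intersection in a projective space with `K_Z = O (m)`,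
`m > 0`, let `Y` be a projective manifold with trivial canonical class, `V = Z × Y`, and let `V ⇢ W` be
any dominant map of finite degree with `d ≤ m`. Then `p_g (W) = 0` or `κ (W) = ν (W) = dim Z`.

The three bounds are best possible (this is not formalised): let `V` be the cyclic covering of degree
`r` of a variety `W` along a smooth divisor in `|r A|`, with `A` very ample. If `K_W = 0` and
`r = m + 1` then `K_V = m H`, and if `K_W = -A` and `r = m + 2` then `K_V = m H`, where `H` is the
pull-back of `A`; in the second case the canonical map of the intermediate covering of degree `2` is
not birational if `r = 2 d`. If `V` is the base change of degree `d` of an elliptic K3 surface `W`,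
then `K_V = (2 d - 2) H` for the pull-back `H` of a point of the line `Z`.

The proof. The traces to `W` of the products `F (x) ω` for the forms `F` of degree `m` are canonical
forms of `W`. Consider two points of `W` with the same image under the map given by these forms,
which are generic with this property. The `2 d` points of `Z` below them satisfy a relation with
nonzero coefficients for all forms of degree `m`. If they are different then `2 d ≥ m + 2` by the
Cayley–Bacharach property, and if moreover `d ≤ m` then they are on a line. This line is defined
over the field of definition of each of the two points, and the second set of points moves on it if the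
first one is fixed. So `Z` is covered by rational curves. If two of the points coincide then they are
fixed if the image under the map is fixed, and so the functions on `Z` are algebraic over the ratios.
-/

set_option autoImplicit false

open FF IntermediateField Pool.Agent.W602.GT Pool.Agent.T2h09.CM

namespace Pool.Agent.Results.MP_c2a5fc_ag.CanonicalImages

/-- **The canonical maps of the varieties dominated by a variety with positive canonical class.** Let
`K` be the function field of the variety `V` of dimension `n`, `x` a rational map to a projective space
with the image `Z`, of dimension `e`, and `ω` a section of `K_V - m H`. Let `L ⊆ K` be the function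
field of a variety `W` which is dominated by `V` through a map of finite degree, and `M` the function
field of the image of `V` in `W × Z`. -/
theorem result {K L : Type} [Field K] [Field L] [Algebra ℂ K] [Algebra ℂ L] [Algebra L K]
    [IsScalarTower ℂ L K] [FiniteDimensional L K] [Algebra.EssFiniteType ℂ K] {n m N e : ℕ}
    (hK : Algebra.trdeg ℂ K = n)
    -- the map `V ⇢ Z`
    {x : Fin N → K} {j0 : Fin N} (hx : x j0 = 1) {E : IntermediateField ℂ K}
    (hE : E = IntermediateField.adjoin ℂ (Set.range x)) (he : Algebra.trdeg ℂ E = e)
    -- the section of `K_V - m H`
    {ω : (Fin n → Derivation ℂ K K) → K} (hω : IsSection n m x ω)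
    -- the image of `V` in `W × Z`
    {M : IntermediateField L K} (hM : M = IntermediateField.adjoin L (Set.range x)) {d : ℕ}
    (hd : Module.finrank L M = d)
    -- the condition on the traces
    (hcond : M = ⊤ ∨ TraceNe M ω ∨ (HasForm L n ∧
      ∀ θ : (Fin n → Derivation ℂ K K) → K, IsCanonical n θ → ∃ g ∈ E, ∀ D, θ D = g * ω D)) :
    (d ≤ m + 1 → HasForm L n) ∧
    ((2 * d ≤ m + 1 ∨ (d ≤ m ∧ (E = ⊤ ∨ ¬ RationalCurvesCover E))) →
      (∀ z ∈ E, IsAlgebraic (canonicalField L n) z) ∧ KodGe ℂ L n (fun _ => False) e ∧
      (Pool.Agent.W619.TW.NumLe ℂ K n (fun _ => False) e →
        Pool.Agent.W619.TW.NumLe ℂ L n (fun _ => False) e)) ∧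
    (2 * d ≤ m + 1 → ∀ a : L, algebraMap L K a ∈ E → a ∈ canonicalField L n) ∧
    ((∀ θ : (Fin n → Derivation ℂ K K) → K, IsCanonical n θ → ∃ g ∈ E, ∀ D, θ D = g * ω D) →
      ∀ a ∈ canonicalField L n, algebraMap L K a ∈ E) := by
  subst hE hd
  have hxM : ∀ j, x j ∈ M := fun j => by
    rw [hM]
    exact IntermediateField.subset_adjoin _ _ ⟨j, rfl⟩
  have htr : TraceNe M ω := by
    rcases hcond with h | h | h
    · exact traceNe_top hK hω h
    · exact h
    · exact traceNe_of_form hK hω hxM h.2 h.1
  have hL : Algebra.trdeg ℂ L = n := Pool.Agent.Y184.NT.trdeg_below (K := K) hK
  have hessL : Algebra.EssFiniteType ℂ L := Pool.Agent.TH466.QG.ess_below (K := K)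
  have hpos : 0 < Module.finrank L M := Module.finrank_pos
  refine ⟨fun h => (traces hK hx hω hM htr h).1, fun h => ?_,
    fun h => (traces hK hx hω hM htr (by omega)).2.2 h, fun h a ha => canonical_le hK hω h ha⟩
  have h1 := (traces hK hx hω hM htr (by rcases h with h | h <;> omega)).2.1 (by
    rcases h with h | ⟨h, h' | h'⟩
    · exact Or.inl h
    · exact Or.inr ⟨h, not_cover hK hx hω h'⟩
    · exact Or.inr ⟨h, h'⟩)
  refine ⟨fun z hz => ?_, Pool.Agent.N145.SX.kodGe_of_canGe (h1.2 e he),
    Pool.Agent.T2h09.ND.numLe_down hL⟩
  induction hz using IntermediateField.adjoin_induction with
  | mem z hz =>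
    obtain ⟨j, rfl⟩ := hz
    exact h1.1 j
  | algebraMap z =>
    rw [IsScalarTower.algebraMap_apply ℂ (canonicalField L n) K]
    exact isAlgebraic_algebraMap _
  | add a b _ _ ha hb => exact ha.add hb
  | inv a _ ha => exact ha.inv
  | mul a b _ _ ha hb => exact ha.mul hb

end Pool.Agent.Results.MP_c2a5fc_ag.CanonicalImages
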