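import Pool.Agent.T2h12.OM.QD
import Pool.Agent.N110.IM.Img
import Pool.Agent.N110.IM.Defs
import Pool.Agent.N110.NV.Fin
import Pool.Agent.R887.Exc

/-!
Abundance for varieties with self-correspondences which are étale in codimension one over both
factors (or crepant, for a pair), such that the degrees of the random products have no long plateau
at the top.
-/

set_option autoImplicit false

open FF Pool.Agent.W602.GT Pool.Agent.Y172 Pool.Agent.R887 Pool.Agent.N110 Pool.Agent.T2h12
open Pool.Agent.T2H06.DYL (IsDivisor)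

namespace Pool.Agent.Results.MP_c2a5fc_ag.CrepantCorrespondences

/-- The divisor `K_X + Δ` is `ℚ`-linearly equivalent to zero (so it is semiample): for some `m ≥ 1`
there is a rational `m`-canonical form `η` such that `m (K_X + Δ)` is the divisor of `η`, shifted by
`m Δ`: the order of `η` along every prime divisor `P` of `X` is `- m Δ P`. -/
def LogTorsion {K : Type} [Field K] [Algebra ℂ K] {N : ℕ} (y : Fin (N + 1) → K) (n : ℕ)
    (Δ : Place ℂ K → ℚ) : Prop :=
  ∃ m : ℕ, 1 ≤ m ∧ ∃ η : (Fin n → Derivation ℂ K K) → K, IsPluri m η ∧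
    ∀ P, IsPrimeDivisor y P → OrdEq P η (-(m * Δ P))

/-- Let `X'` be a normal projective variety of dimension `n` with generic point `y'` and function
field `K'`, `Δ'` a `ℚ`-divisor on `X'`, and `Ω` an algebraic extension of `K'` (for instance an
algebraic closure). Let `g_1, ..., g_d` be automorphisms of `Ω` over `ℂ`, which need not preserve
`K'`. Every `g_i` is a branch of an algebraic, multi-valued self-map of `X'`: of the irreducible
correspondence `Γ_i` with the function field `K' ⊔ g_i K'`, with the projections `p_i`, `q_i` to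
`X'` given by the inclusion of `K'` and by `g_i` (`pr₁`, `pr₂`); if `Ω` is algebraically closed then
all the irreducible correspondences which are generically finite over both factors occur. Suppose
that all the `Γ_i` are crepant: `q_i^* (K_X' + Δ') ≤ p_i^* (K_X' + Δ')` along the divisors which are
mapped onto prime divisors of `X'` by `p_i`, and `p_i^* (K_X' + Δ') ≤ q_i^* (K_X' + Δ')` along the
divisors which are mapped onto prime divisors of `X'` by `q_i` (`CorrLe`); or that `Δ' = 0`, `X'` has
canonical singularities (for instance is smooth) and both projections of every `Γ_i` are unramified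
over the prime divisors of `X'` (`Unram`).

Let `w i ≥ 0` be probabilities with sum `1`, and `s ≥ 0` real. The dynamical degrees
`λ 0, ..., λ n` of exponent `s` of the random products of the branches `g_i` (`corrRandom`) are the
growth rates of the means of exponent `s` of the normalised degrees
`(q^* H) ^ p · (p^* H) ^ (n - p) / deg p` of the composition of `l` independent random branches. If
the `g_i` are the `d` branches of one correspondence, `s = 1` and `w i = 1 / d`, then they are its
dynamical degrees divided by `d`. Suppose that the greatest of the numbers `λ 0, ..., λ n` is not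
attained at `ν + 1` consecutive indices, `ν ≥ 1`. No positivity of `K_X' + Δ'` is assumed.

Let `(X, Δ)` be a pair, `Δ ≥ 0`, which is dominated by `(X', Δ')`: there is a dominant rational map
`X' ⇢ X`, generically finite, given by the homomorphism `π` of the function fields, such that the
pull back of `K_X + Δ` is at most `K_X' + Δ'` over the prime divisors of `X'` (for instance
`X = X'`, `Δ = Δ'`). Then the numerical dimension of `K_X + Δ` is at most `ν - 1`, and so is the
Kodaira dimension; if the Kodaira dimension is at least `ν - 1` then the Kodaira dimension and the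
numerical dimension of `K_X + Δ` are equal. For `ν = 1` (the greatest of the numbers `λ p` is
attained at one index only) this means: if `K_X + Δ` is effective, up to `ℚ`-linear equivalence,
then the Kodaira dimension and the numerical dimension of `K_X + Δ` are zero (this is also proved
for the numerical dimension defined by the growth of the number of the sections of
`m (K_X + Δ) + A`); and if `K_X + Δ` is nef, and effective up to `ℚ`-linear equivalence or `X` of
irregularity zero, then `K_X + Δ` is `ℚ`-linearly trivial, in particular semiample. -/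
theorem result
    {K K' Ω : Type} [Field K] [Algebra ℂ K] [Field K'] [Algebra ℂ K'] [Field Ω] [Algebra ℂ Ω]
    [Algebra K' Ω] [IsScalarTower ℂ K' Ω] [Algebra.IsAlgebraic K' Ω] {N N' n : ℕ}
    {y : Fin (N + 1) → K} {y' : Fin (N' + 1) → K'} (hy : NormalModel y) (hy' : NormalModel y')
    (hn : Algebra.trdeg ℂ K = n) (hn' : Algebra.trdeg ℂ K' = n)
    {Δ' : Place ℂ K' → ℚ} (hΔ' : IsDivisor y' Δ') {d : ℕ} {g : Fin d → (Ω ≃ₐ[ℂ] Ω)}
    (hg : (∀ i, OM.CorrLe y' n Δ' (OM.pr₁ K' (g i)) (OM.pr₂ K' (g i)) ∧
        OM.CorrLe y' n Δ' (OM.pr₂ K' (g i)) (OM.pr₁ K' (g i))) ∨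
      (Δ' = 0 ∧ Canonical y' n ∧
        ∀ i, OM.Unram y' (OM.pr₁ K' (g i)) ∧ OM.Unram y' (OM.pr₂ K' (g i))))
    {w : Fin d → ℝ} (hw : ∀ i, 0 ≤ w i) (hw1 : ∑ i, w i = 1) {s : ℝ} (hs : 0 ≤ s)
    {ν : ℕ} (hν1 : 1 ≤ ν) (hν : ν ≤ n)
    (hdeg : ∀ j, j + ν ≤ n → ∃ a ≤ ν, ∃ p ≤ n,
      OM.corrRandom g w y' n s (j + a) < OM.corrRandom g w y' n s p)
    {Δ : Place ℂ K → ℚ} (hΔ : Effective y Δ) (π : K →ₐ[ℂ] K')
    (hπ : IM.ImagePullLe π y n Δ y' Δ') :
    NumDimLt y n Δ ν ∧ ¬ KappaGe y n Δ ν ∧ (KappaGe y n Δ (ν - 1) → Abundant y n Δ) ∧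
      (ν = 1 → KappaGe y n Δ 0 → kodairaDim y n Δ = ((0 : ℕ) : WithBot ℕ) ∧
        ∀ A, Effective y A → Integral y A → numericalDim y n Δ A = ((0 : ℕ) : EReal)) ∧
      (ν = 1 → LogNef y n Δ → KappaGe y n Δ 0 ∨ IrregularityZero y → LogTorsion y n Δ) := by
  classical
  have hn0 : 0 < n := by omega
  have hess' := hy'.ess
  have hg' : ∀ i, OM.CorrLe y' n Δ' (OM.pr₁ K' (g i)) (OM.pr₂ K' (g i)) ∧
      OM.CorrLe y' n Δ' (OM.pr₂ K' (g i)) (OM.pr₁ K' (g i)) := by
    rcases hg with h | ⟨rfl, hcan, h⟩
    · exact h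
    · intro i
      have hadm := OM.corrField_adm (K := K') (g i)
      exact ⟨OM.corrLe_canonical hy' hn' (OM.ess_M hadm) (OM.trdeg_M hn' hadm) hcan (h i).1 _,
        OM.corrLe_canonical hy' hn' (OM.ess_M hadm) (OM.trdeg_M hn' hadm) hcan (h i).2 _⟩
  have h1 : NumDimLt y' n Δ' ν := by
    by_contra hcon
    obtain ⟨j, hj, h⟩ := OM.can_plateau hy' hn' hn0 hΔ' hg' hw hw1 hs hν hcon
    obtain ⟨a, ha, p, hp, hlt⟩ := hdeg j hj
    exact absurd hlt (not_lt.2 (h a ha p hp))
  have h2 := IM.numDimLt_img hy hy' hn hn' π hπ hν h1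
  refine ⟨h2, ?_, fun h => ⟨ν - 1, h, ?_⟩, ?_, ?_⟩
  · rintro ⟨m, hm, ω, E, hω, h0, hind⟩
    exact kappa_lt hy hn hν h2 hm hω h0 hind
  · rwa [show ν - 1 + 1 = ν by omega]
  · rintro rfl ⟨m, hm, ω, E, hω, h0, -⟩
    refine abundance_zero hy hn hn0 hΔ h2 hm (hω 0) fun h4 => h0 ?_
    rw [h4]
    rfl
  · rintro rfl hnef hκ
    have h3 : ∃ m : ℕ, 1 ≤ m ∧ ∃ η : (Fin n → Derivation ℂ K K) → K, η ≠ 0 ∧
        IsSection y n m (m • Δ) η := by
      rcases hκ with ⟨m, hm, ω, E, hω, h0, -⟩ | hirr
      · exact ⟨m, hm, ω 0, fun h4 => h0 (by rw [h4]; rfl), hω 0⟩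
      · exact NV.nonvanishing hy hn hn0 hΔ.2 (NV.psef_of_nef hy hn hn0 hnef) h2 hirr
    obtain ⟨m, hm, η, hη0, hη⟩ := h3
    exact ⟨m, hm, η, hη.1, nef_trivialP hy hn hn0 h2 hnef hm hη hη0⟩

end Pool.Agent.Results.MP_c2a5fc_ag.CrepantCorrespondences
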