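import Pool.Agent.T2h09.RF.Fin
import Pool.Agent.T2h09.ND.Nu

/-!
# Abundance for the varieties dominated by a fibration with fibres of Kodaira dimension zero

Let `V` be a projective manifold with a fibration `V ⇢ X` over a variety `X` whose general fibres are
irreducible, of positive dimension and of Kodaira dimension `0` (or `-∞`), for example the Iitaka
fibration of `V`, or a product `X × Y`, or a variety `V` which is generically finite over a product
`X × Y`; nothing is assumed on the minimal models of the fibres. Let `V ⇢ W` be any dominant rational
map of finite degree. It is not assumed to be related to the fibration, nor to be a quotient by a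
group; `W` need not have a fibration over a variety dominated by `X`. Let `W₁` be the image of `V` in
`W × X`. Let `S` be a set of functions on `X` which spans the function field of `W₁` over that of `W`
(if `d` is the number of the points of `X` below a general point of `W`, and if the functions
`h 1, ..., h N` on `X` separate points, then this holds for the monomials of degree at most `d - 1` in
the `h i`), and let `D` be the divisor of the poles of the functions in `S`.

Let `Ram` be the divisor `∑ (e (Q) - 1) Q` of the multiplicities of the fibres of `V ⇢ X` over prime
divisors, on all models. Suppose that the Iitaka dimension of `K_V - 2 D - Ram` is at least `a`. Then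
the following are equivalent: `κ (W) ≥ 0`; `κ (W) ≥ a`; the images in `W` of the general fibres of
`V ⇢ X` have nonnegative Kodaira dimension. Moreover, `ν (W) ≤ a` if `ν (V) ≤ a`.

So if `κ (V) = ν (V) = dim X` (that is, `V ⇢ X` is the Iitaka fibration, and `V` satisfies the
conjecture), and if `K_V - 2 D - Ram` has Iitaka dimension `dim X`, then `κ (W) = ν (W) = dim X` or
`κ (W) = -∞`, and the latter holds if and only if the images of the fibres have Kodaira dimension
`-∞`. If these images have dimension at most three, then in this case they are uniruled by the
theorems of Miyaoka and Kawamata, so `W` is uniruled, and all projective manifolds birational to `W`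
satisfy the conjecture.

For a product `V = X × Y` with `κ (Y) = 0`, forms as needed are the products of the forms of weight
`m` on `X` whose products with the `s ^ (2 m)`, `s ∈ S`, are regular with a form of weight `m` on `Y`
(they vanish along `Ram`, since a form on `X` vanishes to the order `m (e - 1)` at a prime divisor
with multiplicity `e`). So the condition is that the Iitaka dimension of `K_X - 2 D` is at least `a`,
for instance that `K_X - 2 (d - 1) H` is big, where `|H|` separates the points of `X`.

The proof. The forms of weight `N` on `V` and the pull-back of a form on the generic fibre of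
`W₁ ⇢ X` differ by functions on `X`, since the fibres have Kodaira dimension at most `0`. So powers
of the forms on `V` are defined over the function field of `W₁`. They are regular along the prime
divisors over `W₁` which dominate `X`, since the form on the generic fibre is, and along the others by
the condition on `Ram`. They are carried over from `W₁` to `W` by norms and discriminants, as in
`DescentOfAbundance`.
-/

set_option autoImplicit false

open FF Pool.Agent.W602.GT

namespace Pool.Agent.Results.MP_c2a5fc_ag.DescentForFibrations

/-- The form `ω` of weight `m` on `V` is regular at the prime divisor `Q` over `V`, and if `Q` lies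
over a prime divisor `P` of a model of `X` and has multiplicity `e` in the fibre over `P`, then `ω`
vanishes at `Q` at least to the order `m (e - 1)`. Here `K` and `E` are the function fields of `V`
and `X`. -/
def RegularOverBase (E : Type) {K : Type} [Field E] [Field K] [Algebra ℂ E] [Algebra ℂ K]
    [Algebra E K] {n : ℕ} (m : ℕ) (Q : Place ℂ K) (ω : (Fin n → Derivation ℂ K K) → K) : Prop :=
  ∀ D : Fin n → Derivation ℂ K K, (∀ i, DerReg Q (D i)) → Q.Reg (ω D) ∧
    ∀ (P : Place ℂ E) (e : ℕ), Over Q P e → ω D = 0 ∨ (m : ℤ) * ((e : ℤ) - 1) ≤ Q.ord (ω D)

/-- **Abundance for the varieties dominated by a fibration.** Let `K` and `E` be the function fields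
of the varieties `V` and `X`, `dim X = p`, `dim V = p + (q + 1)`, and let `V ⇢ X` be a fibration with
irreducible general fibres, of Kodaira dimension at most `0`. Let `L ⊆ K` be the function field of a
variety `W` which is dominated by `V` through a map of finite degree, and let `M` be the function
field of the image `W₁` of `V` in `W × X`. Let `S` be a set of functions on `X` which spans `M` over
`L`, and let `R 0, ..., R a` be forms of weight `m` on `V` with algebraically independent ratios, such
that `s ^ (2 * m) * R j` is regular and vanishes to the order `m (e - 1)` at all prime divisors of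
multiplicity `e` in the fibres, for all `s ∈ S`. Then `κ (W) ≥ 0` if and only if `κ (W) ≥ a`, if and
only if the generic fibre of `W₁ ⇢ X`, with function field `M` over `E`, has nonnegative Kodaira
dimension. If `ν (V) ≤ a` then `ν (W) ≤ a`, and so `κ (W) = ν (W) = a` in this case. -/
theorem result {E L M K : Type} [Field E] [Field L] [Field M] [Field K] [Algebra ℂ E]
    [Algebra ℂ L] [Algebra ℂ M] [Algebra ℂ K] [Algebra E M] [Algebra E K] [Algebra L M]
    [Algebra M K] [Algebra L K] [IsScalarTower ℂ E M] [IsScalarTower ℂ E K] [IsScalarTower ℂ L M]
    [IsScalarTower ℂ M K] [IsScalarTower ℂ L K] [IsScalarTower E M K] [IsScalarTower L M K]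
    [FiniteDimensional L K] [Algebra.EssFiniteType ℂ K] {p q : ℕ}
    (hE : Algebra.trdeg ℂ E = p) (hK : Algebra.trdeg ℂ K = (p + (q + 1) : ℕ))
    -- the general fibres of `V ⇢ X` are irreducible and of Kodaira dimension at most `0`
    (hcl : ∀ z : K, IsAlgebraic E z → z ∈ Set.range (algebraMap E K))
    (hκ : ¬ KodGe E K (q + 1) (fun _ => False) 1)
    -- the functions on `X` and the forms on `V`
    (S : Set E) (hS : Submodule.span L (algebraMap E M '' S) = ⊤) {m a : ℕ} (hm : 0 < m)
    (R : Fin (a + 1) → (Fin (p + (q + 1)) → Derivation ℂ K K) → K) (hR : ∀ j, IsPluri m (R j))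
    (hreg : ∀ j, ∀ Q : Place ℂ K, Divisorial (p + (q + 1)) Q → ∀ s ∈ S,
      RegularOverBase E m Q fun D => algebraMap E K s ^ (2 * m) * R j D)
    (hind : ∃ D, R 0 D ≠ 0 ∧ AlgebraicIndependent ℂ fun j : Fin a => R j.succ D / R 0 D) :
    [KodGe ℂ L (p + (q + 1)) (fun _ => False) 0, KodGe ℂ L (p + (q + 1)) (fun _ => False) a,
      KodGe E M (q + 1) (fun _ => False) 0].TFAE ∧
    (Pool.Agent.W619.TW.NumLe ℂ K (p + (q + 1)) (fun _ => False) a →
      Pool.Agent.W619.TW.NumLe ℂ L (p + (q + 1)) (fun _ => False) a) := by
  have hMK : FiniteDimensional M K := FiniteDimensional.right L M K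
  have hLM : FiniteDimensional L M :=
    Module.Finite.of_injective ((IsScalarTower.toAlgHom L M K).toLinearMap)
      (algebraMap M K).injective
  have hessL : Algebra.EssFiniteType ℂ L := Pool.Agent.T2h09.ND.ess_below (K := K)
  have hL : Algebra.trdeg ℂ L = (p + (q + 1) : ℕ) := Pool.Agent.T2h09.ND.trdeg_below (K := K) hK
  refine ⟨?_, Pool.Agent.T2h09.ND.numLe_down hL⟩
  tfae_have 2 → 1 := Pool.Agent.T2h09.RF.kodGe_zero
  tfae_have 1 → 3 := Pool.Agent.T2h09.RF.kod_fibre (M := M) (K := K) hE hK
  tfae_have 3 → 2 := fun hZ => Pool.Agent.T2h09.RF.kodGe_fib hE hK hcl hκ hZ S hS hm R hR hreg hind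
  tfae_finish

end Pool.Agent.Results.MP_c2a5fc_ag.DescentForFibrations
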