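import Pool.Agent.T2h09.ND.Top
import Pool.Agent.T2h09.ND.Nu
import Pool.Agent.T2h09.ND.Fg

/-!
# Descent of abundance under dominant rational maps

Let `V` and `W` be projective manifolds of dimension `n`, of any Kodaira dimension, and let
`f : V ⇢ W` be a dominant rational map of degree `r`. It need not be a quotient by a group, and it may
be ramified. Let `S` be a set of rational functions on `V` which spans the function field `K` of `V`
over the function field `L` of `W`: the points of a general fibre of `f` impose `r` conditions on the
span of `S`. Let `D` be the divisor of the poles of the functions in `S` on a model of `V` on which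
they have no base points. The theorem:

  `κ (W) ≥ κ (V, K_V - 2 D)`.

So if `κ (V, K_V - 2 D) = ν (V)`, then `κ (W) = ν (W) = ν (V)` (since `ν (W) ≤ ν (V)`), and every
projective manifold `M` birational to `W` satisfies the abundance conjecture.

For example, let `h 1, ..., h N` be rational functions on `V` with poles at most along a divisor `H`
which separate the points of a general fibre. Then the monomials of degree at most `r - 1` in the
`h i` span `K` over `L`, and `κ (W) ≥ κ (V, K_V - 2 (r - 1) H)`. In particular, if `|H|` defines a
birational map of `V` to a subvariety of a projective space, and `K_V - 2 (r - 1) H` is big, then all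
varieties `W` which are dominated by `V` through rational maps of degree `r` are of general type. (The
same holds if `W` is dominated with degree `r` by a variety `V'` which is generically finite over `V`,
of any degree, if the functions on `V` generate the function field of `V'` over the one of `W`,
since pluricanonical forms can be pulled back to `V'`.) If `r ≤ 2 t + 1` and `K_V - 2 t H` is big,
then `W` is of general type, or the points of the general fibres of `f` are collinear in the map
given by `|H|`. The constant `2 (r - 1)` is the best possible one for `ℚ`-divisors: the
smooth curves `V` of bidegree `(r, e)` in the product of two projective lines have maps of degree `r`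
to `W = ℙ¹`, and `2 g (V) - 2 = 2 (r - 1) e - 2 r`, where `e` is the degree of `H`.

The proof: for forms `Θ` of weight `m` on `V`, as above, the product of the norm of `Θ` and the `m`-th
power of the discriminant of a basis `h` of `K` over `L` in `S` is a form of weight `r m` on `W`, and
it is regular at all prime divisors `P` over `W`: let `g` be a function on `V` with
`ord g = (1 - e) - 2 min (ord (h i))` at all prime divisors over `P`, where `e` is the ramification
index. The traces of `g * h i * h j` are regular at `P`, so their determinant `N (g) * disc (h)` is,
and the norm of `Θ / g ^ m` is regular at `P`. The coefficients of the characteristic polynomials of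
the ratios of the `Θ` are ratios of such forms.
-/

set_option autoImplicit false

open FF Pool.Agent.W602.GT

namespace Pool.Agent.Results.MP_c2a5fc_ag.DescentOfAbundance

/-- **Descent of abundance.** Let `K` and `L ⊆ K` be the function fields of the projective varieties
`V` and `W` of dimension `n`, `K` finite over `L`, let the set `S` of rational functions on `V` span
`K` over `L`, and let `Θ 0, ..., Θ a` be rational `m`-canonical forms on `V` such that all the forms
`s ^ (2 * m) * Θ j`, `s ∈ S`, are regular at all prime divisors over `V`, i.e. the `Θ j` are sections
of `m (K_V - 2 D)`, where `D` is the divisor of the poles of `S`. Let the ratios `Θ j / Θ 0` be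
algebraically independent. Then `κ (W) ≥ a`. If moreover `ν (V) ≤ a` then `ν (W) ≤ a`, and so
`κ (W) = ν (W) = a`. -/
theorem result {K : Type} [Field K] [Algebra ℂ K] [Algebra.EssFiniteType ℂ K] {n : ℕ}
    (hn : Algebra.trdeg ℂ K = n) (L : Type) [Field L] [Algebra ℂ L] [Algebra L K]
    [IsScalarTower ℂ L K] [FiniteDimensional L K] (S : Set K) (hS : Submodule.span L S = ⊤)
    {m a : ℕ} (hm : 0 < m) (Θ : Fin (a + 1) → (Fin n → Derivation ℂ K K) → K)
    (hΘ : ∀ j, IsPluri m (Θ j))
    (hreg : ∀ j, ∀ Q : Place ℂ K, Divisorial n Q → ∀ s ∈ S, RegAt Q fun D => s ^ (2 * m) * Θ j D)
    (hind : ∃ D, Θ 0 D ≠ 0 ∧ AlgebraicIndependent ℂ fun j : Fin a => Θ j.succ D / Θ 0 D) :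
    KodGe ℂ L n (fun _ => False) a ∧
      (Pool.Agent.W619.TW.NumLe ℂ K n (fun _ => False) a →
        Pool.Agent.W619.TW.NumLe ℂ L n (fun _ => False) a) := by
  have hessL : Algebra.EssFiniteType ℂ L := Pool.Agent.T2h09.ND.ess_below (K := K)
  have hL : Algebra.trdeg ℂ L = n := Pool.Agent.T2h09.ND.trdeg_below (K := K) hn
  obtain ⟨ι, _, h, hh⟩ := Pool.Agent.T2h09.ND.exists_basis S hS
  exact ⟨Pool.Agent.T2h09.ND.kodGe_descent hL h hm Θ hΘ
    (fun j Q hQ i => hreg j Q hQ (h i) (hh i)) hind, Pool.Agent.T2h09.ND.numLe_down hL⟩

end Pool.Agent.Results.MP_c2a5fc_ag.DescentOfAbundance
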